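import Pool.Agent.N869.GK.L.Stm

/-!
# Project GK, part FAM: full families of unlinked sets are products
-/

set_option autoImplicit false
set_option linter.unusedVariables false

open scoped Classical

namespace Pool.Agent.N386.GK

open Finset Pool.Agent.N869.GK
open Pool.Agent.N869.QT.L (Fam)

section forms

variable {ι : Type} [Fintype ι]

/-- the quadratic form -/
def qf (B : Finset ι) (ζ : Dc ι) : ZMod 2 := ∑ x ∈ B, om (ζ x).2 (ζ x).1

/-- the bilinear form -/
def bf (B : Finset ι) (u η : Dc ι) : ZMod 2 :=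
  ∑ x ∈ B, (om (u x).2 (η x).1 + om (η x).2 (u x).1)

omit [Fintype ι] in
theorem Qs_eq (B : Finset ι) (ζ ζ' : Dc ι) : Qs B ζ ζ' = qf B (ζ + ζ') := rfl

omit [Fintype ι] in
theorem qf_add (B : Finset ι) (u v : Dc ι) : qf B (u + v) = qf B u + qf B v + bf B u v := by
  unfold qf bf
  rw [← sum_add_distrib, ← sum_add_distrib]
  refine sum_congr rfl (fun x _ => ?_)
  simp only [om, Pi.add_apply, Prod.fst_add, Prod.snd_add]
  ring

omit [Fintype ι] in
theorem bf_add_left (B : Finset ι) (u v w : Dc ι) : bf B (u + v) w = bf B u w + bf B v w := by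
  unfold bf
  rw [← sum_add_distrib]
  refine sum_congr rfl (fun x _ => ?_)
  simp only [om, Pi.add_apply, Prod.fst_add, Prod.snd_add]
  ring

omit [Fintype ι] in
theorem bf_comm (B : Finset ι) (u v : Dc ι) : bf B u v = bf B v u := by
  unfold bf
  refine sum_congr rfl (fun x _ => ?_)
  ring

omit [Fintype ι] in
theorem dd (u : Dc ι) : u + u = 0 := by
  funext x
  refine Prod.ext ?_ ?_ <;> funext i <;> exact CharTwo.add_self_eq_zero _

omit [Fintype ι] in
theorem zadd (a : ZMod 2) : a + a = 0 := CharTwo.add_self_eq_zero a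

omit [Fintype ι] in
theorem qf_congr {B B' : Finset ι} {u u' : Dc ι} (h : B ⊆ B') (h1 : ∀ x ∈ B, u x = u' x)
    (h2 : ∀ x ∈ B', x ∉ B → u' x = 0) : qf B u = qf B' u' := by
  unfold qf
  rw [← sum_subset h (f := fun x => om (u' x).2 (u' x).1)]
  · exact sum_congr rfl (fun x hx => by rw [h1 x hx])
  · intro x hx hx'
    rw [h2 x hx hx']
    simp [om]

omit [Fintype ι] in
/-- the sum over a subset that carries the second vector -/
theorem bf_congr {B B' : Finset ι} {u u' v v' : Dc ι} (h : B ⊆ B') (h1 : ∀ x ∈ B, u x = u' x)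
    (h1' : ∀ x ∈ B, v x = v' x) (h2 : ∀ x ∈ B', x ∉ B → v' x = 0) : bf B u v = bf B' u' v' := by
  unfold bf
  rw [← sum_subset h (f := fun x => om (u' x).2 (v' x).1 + om (v' x).2 (u' x).1)]
  · exact sum_congr rfl (fun x hx => by rw [h1 x hx, h1' x hx])
  · intro x hx hx'
    rw [h2 x hx hx']
    simp [om]

theorem mem_Sp (B : Finset ι) (ζ : Dc ι) : ζ ∈ Sp B ↔ ∀ x, x ∉ B → ζ x = 0 := by
  simp [Sp]

theorem Sp_add {B : Finset ι} {u v : Dc ι} (hu : u ∈ Sp B) (hv : v ∈ Sp B) : u + v ∈ Sp B := by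
  rw [mem_Sp] at *
  intro x hx
  rw [Pi.add_apply, hu x hx, hv x hx, add_zero]

theorem Sp_mono {B B' : Finset ι} (h : B ⊆ B') {u : Dc ι} (hu : u ∈ Sp B) : u ∈ Sp B' := by
  rw [mem_Sp] at *
  exact fun x hx => hu x (fun h' => hx (h h'))

/-- the group of the differences -/
def LL (Z : Finset (Dc ι)) (u : Dc ι) : Prop := ∃ ζ₁ ∈ Z, ∃ ζ₂ ∈ Z, u = ζ₁ + ζ₂

variable {B : Finset ι} {Z : Finset (Dc ι)}

theorem MS_ne (h : MS B Z) : Z.Nonempty := by
  rw [← card_pos, h.2.1]
  positivity

theorem L1 (hU : S_UNL) (h : MS B Z) {z u : Dc ι} (hz : z ∈ Z) (hu : LL Z u) : z + u ∈ Z := by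
  obtain ⟨a, ha, b, hb, rfl⟩ := hu
  have := ((hU ι B).2 Z h).1 z hz a ha b hb
  rwa [add_assoc] at this

theorem L2 (hU : S_UNL) (h : MS B Z) {u v : Dc ι} (hu : LL Z u) (hv : LL Z v) :
    LL Z (u + v) := by
  obtain ⟨a, ha, b, hb, rfl⟩ := hu
  refine ⟨b + v, L1 hU h hb hv, a, ha, ?_⟩
  abel

theorem L3 (h : MS B Z) : LL Z 0 := by
  obtain ⟨z, hz⟩ := MS_ne h
  exact ⟨z, hz, z, hz, (dd z).symm⟩

theorem L4 (hU : S_UNL) (h : MS B Z) {η : Dc ι} (hη : η ∈ Sp B)
    (hb : ∀ u, LL Z u → bf B u η = 0) : LL Z η := by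
  obtain ⟨z, hz⟩ := MS_ne h
  have := ((hU ι B).2 Z h).2.2 η hη (fun ζ₁ h1 ζ₂ h2 => hb (ζ₁ + ζ₂) ⟨ζ₁, h1, ζ₂, h2, rfl⟩) z hz
  refine ⟨z, hz, z + η, this, ?_⟩
  rw [← add_assoc, dd, zero_add]

theorem L5 (h : MS B Z) {u : Dc ι} (hu : LL Z u) : u ∈ Sp B := by
  obtain ⟨a, ha, b, hb, rfl⟩ := hu
  exact Sp_add (h.1 ha) (h.1 hb)

theorem L6 (h : MS B Z) {u : Dc ι} (hu : LL Z u) : qf B u = 0 := by
  obtain ⟨a, ha, b, hb, rfl⟩ := hu
  exact h.2.2 a ha b hb

end forms

section prod

variable {ι I Q : Type} [Fintype ι] [Fintype I] [Fintype Q]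

omit [Fintype ι] [Fintype I] in
theorem rs_add (c : ι → I) (a : I) (u v : Dc ι) : rs c a (u + v) = rs c a u + rs c a v := by
  funext x
  simp only [rs, Pi.add_apply]
  split_ifs <;> simp

omit [Fintype I] in
theorem rs_mem (c : ι → I) (a : I) (u : Dc ι) : rs c a u ∈ Sp (cp c a) := by
  rw [mem_Sp]
  intro x hx
  have : c x ≠ a := fun h => hx (by simp [cp, h])
  simp [rs, this]

omit [Fintype I] in
theorem rs_self (c : ι → I) (a : I) {u : Dc ι} (hu : u ∈ Sp (cp c a)) : rs c a u = u := by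
  rw [mem_Sp] at hu
  funext x
  by_cases h : c x = a
  · simp [rs, h]
  · rw [hu x (by simp [cp, h])]
    simp [rs, h]

omit [Fintype ι] in
theorem sum_rs (c : ι → I) (u : Dc ι) : ∑ a, rs c a u = u := by
  funext x
  rw [Finset.sum_apply]
  simp [rs]

theorem mem_PZ (c : ι → I) (Y : I → Finset (Dc ι)) (P : I → Prop) (ζ : Dc ι) :
    ζ ∈ PZ c Y P ↔ (∀ x, ¬ P (c x) → ζ x = 0) ∧ ∀ a, P a → rs c a ζ ∈ Y a := by
  unfold PZ
  rw [mem_filter, mem_Sp]
  simp

/-- gluing -/
theorem glue (c : ι → I) (Y : I → Finset (Dc ι)) (P : I → Prop)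
    (hY : ∀ a, Y a ⊆ Sp (cp c a)) (y : I → Dc ι) (hy : ∀ a, P a → y a ∈ Y a) :
    ∃ ζ ∈ PZ c Y P, ∀ a, P a → rs c a ζ = y a := by
  have h1 : ∀ a, P a → rs c a (fun x => if P (c x) then y (c x) x else 0) = y a := by
    intro a ha
    have h2 := (mem_Sp _ _).mp (hY a (hy a ha))
    funext x
    by_cases hx : c x = a
    · simp [rs, hx, ha]
    · rw [h2 x (by simp [cp, hx])]
      simp [rs, hx]
  refine ⟨fun x => if P (c x) then y (c x) x else 0, ?_, h1⟩
  rw [mem_PZ]
  refine ⟨fun x hx => by simp [hx], fun a ha => ?_⟩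
  rw [h1 a ha]
  exact hy a ha

theorem card_PZ (c : ι → I) (Y : I → Finset (Dc ι)) (P : I → Prop)
    (hY : ∀ a, Y a ⊆ Sp (cp c a)) (S : Finset I) (hS : ∀ a, a ∈ S ↔ P a) :
    (PZ c Y P).card = ∏ a ∈ S, (Y a).card := by
  have h : (PZ c Y P).card =
      (Fintype.piFinset fun a => if P a then Y a else ({0} : Finset (Dc ι))).card := by
    refine Finset.card_nbij' (fun ζ a => rs c a ζ) (fun y x => y (c x) x) ?_ ?_ ?_ ?_
    · intro ζ hζ
      rw [mem_coe, mem_PZ] at hζ
      rw [mem_coe, Fintype.mem_piFinset]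
      intro a
      by_cases ha : P a
      · simp [ha, hζ.2 a ha]
      · simp only [ha, if_false, mem_singleton]
        funext x
        by_cases hx : c x = a
        · have := hζ.1 x (by rw [hx]; exact ha)
          simp [rs, this]
        · simp [rs, hx]
    · intro y hy
      rw [mem_coe, Fintype.mem_piFinset] at hy
      have h0 : ∀ a x, c x ≠ a → y a x = 0 := by
        intro a x hx
        have := hy a
        by_cases ha : P a
        · simp only [ha, if_true] at this
          exact (mem_Sp _ _).mp (hY a this) x (by simp [cp, hx])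
        · simp only [ha, if_false, mem_singleton] at this
          rw [this]; rfl
      have h1 : ∀ a, rs c a (fun x => y (c x) x) = y a := by
        intro a
        funext x
        by_cases hx : c x = a
        · simp [rs, hx]
        · rw [h0 a x hx]
          simp [rs, hx]
      rw [mem_coe, mem_PZ]
      refine ⟨fun x hx => ?_, fun a ha => ?_⟩
      · have := hy (c x)
        simp only [hx, if_false, mem_singleton] at this
        show y (c x) x = 0
        rw [this]; rfl
      · rw [h1 a]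
        have := hy a
        simpa [ha] using this
    · intro ζ hζ
      funext x
      simp [rs]
    · intro y hy
      rw [mem_coe, Fintype.mem_piFinset] at hy
      funext a x
      by_cases hx : c x = a
      · simp [rs, hx]
      · have h0 : y a x = 0 := by
          have := hy a
          by_cases ha : P a
          · simp only [ha, if_true] at this
            exact (mem_Sp _ _).mp (hY a this) x (by simp [cp, hx])
          · simp only [ha, if_false, mem_singleton] at this
            rw [this]; rfl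
        rw [h0]
        simp [rs, hx]
  have hSf : S = univ.filter P := by
    ext a
    simp [hS]
  rw [h, Fintype.card_piFinset, hSf, Finset.prod_filter]
  refine prod_congr rfl (fun a _ => ?_)
  split_ifs <;> simp

omit [Fintype Q] in
theorem card_Aq (E : I → Finset Q) (c : ι → I) (q : Q) :
    (Aq E c q).card = ∑ a ∈ univ.filter (fun a => q ∈ E a), (cp c a).card := by
  have h : Aq E c q = (univ.filter (fun a => q ∈ E a)).biUnion (cp c) := by
    ext x
    simp [Aq, cp]
  rw [h, card_biUnion]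
  intro a _ b _ hab
  rw [Function.onFun, Finset.disjoint_left]
  intro x hx hx'
  simp only [cp, mem_filter, mem_univ, true_and] at hx hx'
  exact hab (hx.symm.trans hx')

omit [Fintype Q] in
theorem cp_sub (E : I → Finset Q) (c : ι → I) {a : I} {q : Q} (h : q ∈ E a) :
    cp c a ⊆ Aq E c q := by
  intro x hx
  simp only [cp, Aq, mem_filter, mem_univ, true_and] at hx ⊢
  rw [hx]
  exact h

end prod

section part1

variable {ι I Q : Type} [Fintype ι] [Fintype I] [Fintype Q]

/-- truncation to the systems in `P` -/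
noncomputable def tp (c : ι → I) (P : I → Prop) (u : Dc ι) : Dc ι :=
  fun x => if P (c x) then u x else 0

theorem step1 (hU : S_UNL) {E : I → Finset Q} {c : ι → I} {Z : Q → Finset (Dc ι)}
    (hM : ∀ q, MS (Aq E c q) (Z q))
    (hZ : ∀ q q', ∀ ζ ∈ Z q, ∀ ζ' ∈ Z q', Qs (Aq E c q ∩ Aq E c q') ζ ζ' = 0)
    (q q' : Q) {u u' : Dc ι} (hu : LL (Z q) u) (hu' : LL (Z q') u') :
    bf (Aq E c q ∩ Aq E c q') u u' = 0 := by
  obtain ⟨z, hz⟩ := MS_ne (hM q)
  obtain ⟨z', hz'⟩ := MS_ne (hM q')
  set B := Aq E c q ∩ Aq E c q'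
  have h1 : qf B (z + z') = 0 := hZ q q' z hz z' hz'
  have h2 : qf B (z + u + z') = 0 := hZ q q' _ (L1 hU (hM q) hz hu) z' hz'
  have h3 : qf B (z + (z' + u')) = 0 := hZ q q' z hz _ (L1 hU (hM q') hz' hu')
  have h4 : qf B (z + u + (z' + u')) = 0 :=
    hZ q q' _ (L1 hU (hM q) hz hu) _ (L1 hU (hM q') hz' hu')
  have e2 : z + u + z' = (z + z') + u := by abel
  have e3 : z + (z' + u') = (z + z') + u' := by abel
  have e4 : z + u + (z' + u') = (z + z' + u) + u' := by abel
  rw [e2] at h2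
  rw [e3] at h3
  rw [e4, qf_add, h2, bf_add_left] at h4
  rw [qf_add, h1] at h3
  have h5 : qf B u' + bf B (z + z') u' = 0 := by
    rw [← h3]; ring
  calc bf B u u' = (0 + qf B u' + (bf B (z + z') u' + bf B u u')) +
        (qf B u' + bf B (z + z') u') := by
        have e1 := zadd (qf B u')
        have e5 := zadd (bf B (z + z') u')
        linear_combination (-1 : ZMod 2) * e1 - e5
    _ = 0 := by rw [h4, h5, add_zero]

theorem step2 (hU : S_UNL) {E : I → Finset Q} {c : ι → I} {Z : Q → Finset (Dc ι)}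
    (hM : ∀ q, MS (Aq E c q) (Z q))
    (hZ : ∀ q q', ∀ ζ ∈ Z q, ∀ ζ' ∈ Z q', Qs (Aq E c q ∩ Aq E c q') ζ ζ' = 0)
    (q q' : Q) {u : Dc ι} (hu : LL (Z q) u) : LL (Z q') (tp c (fun a => q' ∈ E a) u) := by
  apply L4 hU (hM q')
  · rw [mem_Sp]
    intro x hx
    have : q' ∉ E (c x) := fun h => hx (by simp [Aq, h])
    simp [tp, this]
  · intro u' hu'
    have h := step1 hU hM hZ q' q hu' hu
    rw [← h]
    symm
    refine bf_congr inter_subset_left (fun x _ => rfl) (fun x hx => ?_) (fun x hx hx' => ?_)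
    · have : q' ∈ E (c x) := by
        have := (mem_inter.mp hx).1
        simpa [Aq] using this
      simp [tp, this]
    · have h0 : x ∉ Aq E c q := fun h' => hx' (mem_inter.mpr ⟨hx, h'⟩)
      have := (mem_Sp _ _).mp (L5 (hM q) hu) x h0
      simp [tp, this]

theorem step3 (hU : S_UNL) {E : I → Finset Q} {c : ι → I} {Z : Q → Finset (Dc ι)}
    (hM : ∀ q, MS (Aq E c q) (Z q))
    (hZ : ∀ q q', ∀ ζ ∈ Z q, ∀ ζ' ∈ Z q', Qs (Aq E c q ∩ Aq E c q') ζ ζ' = 0)
    (q q' : Q) {u : Dc ι} (hu : LL (Z q) u) : LL (Z q) (tp c (fun a => q' ∈ E a) u) := by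
  have h1 := step2 hU hM hZ q q' hu
  have h2 := step2 hU hM hZ q' q h1
  have e : tp c (fun a => q ∈ E a) (tp c (fun a => q' ∈ E a) u) =
      tp c (fun a => q' ∈ E a) u := by
    funext x
    by_cases hx : q ∈ E (c x)
    · simp [tp, hx]
    · have h0 : x ∉ Aq E c q := by simp [Aq, hx]
      have := (mem_Sp _ _).mp (L5 (hM q) hu) x h0
      simp [tp, this]
  rwa [e] at h2

theorem step4 (hU : S_UNL) {E : I → Finset Q} (hE : Function.Injective E) {c : ι → I}
    {Z : Q → Finset (Dc ι)} (hM : ∀ q, MS (Aq E c q) (Z q))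
    (hZ : ∀ q q', ∀ ζ ∈ Z q, ∀ ζ' ∈ Z q', Qs (Aq E c q ∩ Aq E c q') ζ ζ' = 0)
    (q : Q) (a : I) {u : Dc ι} (hu : LL (Z q) u) : LL (Z q) (rs c a u) := by
  have key : ∀ s : Finset I, a ∉ s → ∃ P : I → Prop, P a ∧ (∀ b ∈ s, ¬ P b) ∧
      ∀ v, LL (Z q) v → LL (Z q) (tp c P v) := by
    intro s
    induction s using Finset.induction_on with
    | empty =>
      intro _
      refine ⟨fun _ => True, trivial, by simp, fun v hv => ?_⟩
      have e : tp c (fun _ => True) v = v := by
        funext x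
        simp [tp]
      rwa [e]
    | insert b s hb ih =>
      intro ha
      rw [mem_insert, not_or] at ha
      obtain ⟨P, hPa, hPs, hP⟩ := ih ha.2
      have hne : E a ≠ E b := fun h => ha.1 (hE h)
      have : ∃ q', ¬ (q' ∈ E a ↔ q' ∈ E b) := by
        by_contra hcon
        push Not at hcon
        exact hne (Finset.ext fun q' => by simpa using hcon q')
      obtain ⟨q', hq'⟩ := this
      by_cases h1 : q' ∈ E a
      · have h2 : q' ∉ E b := fun h => hq' ⟨fun _ => h, fun _ => h1⟩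
        refine ⟨fun d => P d ∧ q' ∈ E d, ⟨hPa, h1⟩, ?_, ?_⟩
        · intro d hd hd'
          rw [mem_insert] at hd
          rcases hd with rfl | hd
          · exact h2 hd'.2
          · exact hPs d hd hd'.1
        · intro v hv
          have h3 := hP _ (step3 hU hM hZ q q' hv)
          have e : tp c P (tp c (fun a => q' ∈ E a) v) =
              tp c (fun d => P d ∧ q' ∈ E d) v := by
            funext x
            simp only [tp]
            by_cases h4 : P (c x) <;> by_cases h5 : q' ∈ E (c x) <;> simp [h4, h5]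
          rwa [e] at h3
      · have h2 : q' ∈ E b := by
          by_contra h
          exact hq' ⟨fun h' => absurd h' h1, fun h' => absurd h' h⟩
        refine ⟨fun d => P d ∧ q' ∉ E d, ⟨hPa, h1⟩, ?_, ?_⟩
        · intro d hd hd'
          rw [mem_insert] at hd
          rcases hd with rfl | hd
          · exact hd'.2 h2
          · exact hPs d hd hd'.1
        · intro v hv
          have h3 := hP _ (L2 hU (hM q) hv (step3 hU hM hZ q q' hv))
          have e : tp c P (v + tp c (fun a => q' ∈ E a) v) =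
              tp c (fun d => P d ∧ q' ∉ E d) v := by
            funext x
            have h6 : v x + v x = 0 := congrFun (dd v) x
            simp only [tp, Pi.add_apply]
            by_cases h4 : P (c x) <;> by_cases h5 : q' ∈ E (c x) <;> simp [h4, h5, h6]
          rwa [e] at h3
  obtain ⟨P, hPa, hPs, hP⟩ := key (univ.erase a) (by simp)
  have e : tp c P u = rs c a u := by
    funext x
    by_cases hx : c x = a
    · simp [tp, rs, hx, hPa]
    · have : ¬ P (c x) := hPs (c x) (by simp [hx])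
      simp [tp, rs, hx, this]
  rw [← e]
  exact hP u hu

/-- the elements of the groups which are supported on one system do not depend on the colour -/
theorem step5 (hU : S_UNL) {E : I → Finset Q} {c : ι → I}
    {Z : Q → Finset (Dc ι)} (hM : ∀ q, MS (Aq E c q) (Z q))
    (hZ : ∀ q q', ∀ ζ ∈ Z q, ∀ ζ' ∈ Z q', Qs (Aq E c q ∩ Aq E c q') ζ ζ' = 0)
    {q q' : Q} {a : I} (hq' : q' ∈ E a) {u : Dc ι} (hs : u ∈ Sp (cp c a)) (hu : LL (Z q) u) :
    LL (Z q') u := by
  have h := step2 hU hM hZ q q' hu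
  have e : tp c (fun a => q' ∈ E a) u = u := by
    funext x
    by_cases hx : c x = a
    · simp [tp, hx, hq']
    · have := (mem_Sp _ _).mp hs x (by simp [cp, hx])
      simp [tp, this]
  rwa [e] at h

theorem step6 (hU : S_UNL) {E : I → Finset Q} (hE : Function.Injective E) {c : ι → I}
    {Z : Q → Finset (Dc ι)} (hM : ∀ q, MS (Aq E c q) (Z q))
    (hZ : ∀ q q', ∀ ζ ∈ Z q, ∀ ζ' ∈ Z q', Qs (Aq E c q ∩ Aq E c q') ζ ζ' = 0)
    {q q' : Q} {a : I} (hq : q ∈ E a) (hq' : q' ∈ E a) {z z' : Dc ι} (hz : z ∈ Z q)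
    (hz' : z' ∈ Z q') : LL (Z q) (rs c a (z + z')) := by
  apply L4 hU (hM q)
  · exact Sp_mono (cp_sub E c hq) (rs_mem c a _)
  · intro v hv
    set B := Aq E c q ∩ Aq E c q' with hB
    have hcB : cp c a ⊆ B := subset_inter (cp_sub E c hq) (cp_sub E c hq')
    set u := rs c a v with hu
    have huL : LL (Z q) u := step4 hU hE hM hZ q a hv
    have huS : u ∈ Sp (cp c a) := rs_mem c a v
    have hu0 := (mem_Sp _ _).mp huS
    have h1 : qf B (z + z') = 0 := hZ q q' z hz z' hz'
    have h2 : qf B (z + u + z') = 0 := hZ q q' _ (L1 hU (hM q) hz huL) z' hz'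
    have e2 : z + u + z' = (z + z') + u := by abel
    rw [e2, qf_add, h1] at h2
    have h3 : qf B u = 0 := by
      have h4 := L6 (hM q) huL
      rw [← h4]
      exact qf_congr inter_subset_left (fun x _ => rfl)
        (fun x hx hx' => hu0 x (fun h => hx' (hcB h)))
    rw [h3] at h2
    have h5 : bf B (z + z') u = 0 := by
      rw [← h2]; ring
    have h6 : bf (cp c a) (z + z') v = bf B (z + z') u := by
      refine bf_congr hcB (fun x _ => rfl) (fun x hx => ?_) (fun x hx hx' => hu0 x hx')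
      have : c x = a := by simpa [cp] using hx
      simp [hu, rs, this]
    have h7 : bf (cp c a) v (z + z') = bf (Aq E c q) v (rs c a (z + z')) := by
      refine bf_congr (cp_sub E c hq) (fun x _ => rfl) (fun x hx => ?_)
        (fun x hx hx' => (mem_Sp _ _).mp (rs_mem c a _) x hx')
      have : c x = a := by simpa [cp] using hx
      simp [rs, this]
    rw [← h7, bf_comm, h6, h5]

theorem part1 (hU : S_UNL) {E : I → Finset Q} (hE : Fam E) {c : ι → I}
    {Z : Q → Finset (Dc ι)} (hM : ∀ q, MS (Aq E c q) (Z q))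
    (hZ : ∀ q q', ∀ ζ ∈ Z q, ∀ ζ' ∈ Z q', Qs (Aq E c q ∩ Aq E c q') ζ ζ' = 0) :
    ∃ Y : I → Finset (Dc ι), (∀ a, MS (cp c a) (Y a)) ∧ ∀ q, Z q = PZ c Y fun a => q ∈ E a := by
  choose z hz using fun q => MS_ne (hM q)
  choose qa hqa using hE.ne
  let Y : I → Finset (Dc ι) := fun a =>
    univ.filter fun η => η ∈ Sp (cp c a) ∧ LL (Z (qa a)) (η + rs c a (z (qa a)))
  have hYmem : ∀ a q, q ∈ E a → ∀ η, η ∈ Y a ↔ η ∈ Sp (cp c a) ∧ LL (Z q) (η + rs c a (z q)) := by
    intro a q hq η
    have aux : ∀ p p', p ∈ E a → p' ∈ E a → η ∈ Sp (cp c a) → LL (Z p) (η + rs c a (z p)) →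
        LL (Z p') (η + rs c a (z p')) := by
      intro p p' hp hp' hs h
      have h1 := step6 hU hE.inj hM hZ hp hp' (hz p) (hz p')
      have h2 := L2 hU (hM p) h h1
      have e : η + rs c a (z p) + rs c a (z p + z p') = η + rs c a (z p') := by
        rw [rs_add]
        have := dd (rs c a (z p))
        calc η + rs c a (z p) + (rs c a (z p) + rs c a (z p'))
            = η + (rs c a (z p) + rs c a (z p)) + rs c a (z p') := by abel
          _ = _ := by rw [this, add_zero]
      rw [e] at h2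
      exact step5 hU hM hZ hp' (Sp_add hs (rs_mem c a _)) h2
    show η ∈ univ.filter _ ↔ _
    rw [mem_filter]
    constructor
    · rintro ⟨_, hs, h⟩
      exact ⟨hs, aux (qa a) q (hqa a) hq hs h⟩
    · rintro ⟨hs, h⟩
      exact ⟨mem_univ _, hs, aux q (qa a) hq (hqa a) hs h⟩
  have hYS : ∀ a, Y a ⊆ Sp (cp c a) := fun a η hη => ((hYmem a (qa a) (hqa a) η).mp hη).1
  have hZY : ∀ q, Z q = PZ c Y fun a => q ∈ E a := by
    intro q
    ext ζ
    rw [mem_PZ]
    constructor
    · intro hζ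
      refine ⟨fun x hx => ?_, fun a ha => ?_⟩
      · exact (mem_Sp _ _).mp ((hM q).1 hζ) x (by simp [Aq, hx])
      · rw [hYmem a q ha]
        refine ⟨rs_mem c a _, ?_⟩
        rw [← rs_add]
        exact step4 hU hE.inj hM hZ q a ⟨ζ, hζ, z q, hz q, rfl⟩
    · rintro ⟨h0, h1⟩
      have h2 : ∀ a, LL (Z q) (rs c a (ζ + z q)) := by
        intro a
        by_cases ha : q ∈ E a
        · have := ((hYmem a q ha _).mp (h1 a ha)).2
          rwa [← rs_add] at this
        · have e : rs c a (ζ + z q) = 0 := by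
            funext x
            by_cases hx : c x = a
            · have e1 := h0 x (by rw [hx]; exact ha)
              have e2 := (mem_Sp _ _).mp ((hM q).1 (hz q)) x (by simp [Aq, hx, ha])
              simp [rs, hx, e1, e2]
            · simp [rs, hx]
          rw [e]
          exact L3 (hM q)
      have h3 : ∀ s : Finset I, LL (Z q) (∑ a ∈ s, rs c a (ζ + z q)) := by
        intro s
        induction s using Finset.induction_on with
        | empty => rw [sum_empty]; exact L3 (hM q)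
        | insert b s hb ih =>
          rw [sum_insert hb]
          exact L2 hU (hM q) (h2 b) ih
      have h4 := h3 univ
      rw [sum_rs] at h4
      have h5 := L1 hU (hM q) (hz q) h4
      have e : z q + (ζ + z q) = ζ := by
        have := dd (z q)
        calc z q + (ζ + z q) = ζ + (z q + z q) := by abel
          _ = ζ := by rw [this, add_zero]
      rwa [e] at h5
  have hYQ : ∀ a, ∀ η ∈ Y a, ∀ η' ∈ Y a, Qs (cp c a) η η' = 0 := by
    intro a η hη η' hη'
    have h1 := (hYmem a (qa a) (hqa a) η).mp hη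
    have h2 := (hYmem a (qa a) (hqa a) η').mp hη'
    have h3 := L2 hU (hM (qa a)) h1.2 h2.2
    have e : η + rs c a (z (qa a)) + (η' + rs c a (z (qa a))) = η + η' := by
      have := dd (rs c a (z (qa a)))
      calc η + rs c a (z (qa a)) + (η' + rs c a (z (qa a)))
          = η + η' + (rs c a (z (qa a)) + rs c a (z (qa a))) := by abel
        _ = _ := by rw [this, add_zero]
    rw [e] at h3
    have h4 := L6 (hM (qa a)) h3
    rw [Qs_eq, ← h4]
    exact qf_congr (cp_sub E c (hqa a)) (fun x _ => rfl)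
      (fun x hx hx' => (mem_Sp _ _).mp (Sp_add h1.1 h2.1) x hx')
  have hYle : ∀ a, (Y a).card ≤ 4 ^ (cp c a).card := fun a =>
    (hU ι (cp c a)).1 (Y a) (hYS a) (hYQ a)
  have hYpos : ∀ a, 0 < (Y a).card := by
    intro a
    rw [card_pos]
    refine ⟨rs c a (z (qa a)), (hYmem a (qa a) (hqa a) _).mpr ⟨rs_mem c a _, ?_⟩⟩
    rw [dd]
    exact L3 (hM (qa a))
  refine ⟨Y, fun a => ⟨hYS a, ?_, hYQ a⟩, hZY⟩
  by_contra hne
  have hlt : (Y a).card < 4 ^ (cp c a).card := lt_of_le_of_ne (hYle a) hne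
  have h1 := (hM (qa a)).2.1
  rw [hZY (qa a), card_PZ c Y _ hYS (univ.filter (fun b => qa a ∈ E b)) (by simp), card_Aq,
    ← Finset.prod_pow_eq_pow_sum] at h1
  have h2 : ∏ b ∈ univ.filter (fun b => qa a ∈ E b), (Y b).card <
      ∏ b ∈ univ.filter (fun b => qa a ∈ E b), 4 ^ (cp c b).card :=
    Finset.prod_lt_prod (fun b _ => hYpos b) (fun b _ => hYle b)
      ⟨a, by simp [hqa a], hlt⟩
  exact absurd h1 (ne_of_lt h2)

theorem part2 (E : I → Finset Q) (c : ι → I) (Y : I → Finset (Dc ι))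
    (hY : ∀ a, MS (cp c a) (Y a)) :
    (∀ q, (PZ c Y fun a => q ∈ E a).card = 4 ^ (Aq E c q).card) ∧
    ∀ q q', ∀ ζ ∈ PZ c Y (fun a => q ∈ E a), ∀ ζ' ∈ PZ c Y (fun a => q' ∈ E a),
      Qs (Aq E c q ∩ Aq E c q') ζ ζ' = 0 := by
  refine ⟨fun q => ?_, fun q q' ζ hζ ζ' hζ' => ?_⟩
  · rw [card_PZ c Y _ (fun a => (hY a).1) (univ.filter (fun a => q ∈ E a)) (by simp), card_Aq,
      ← Finset.prod_pow_eq_pow_sum]
    exact prod_congr rfl (fun a _ => (hY a).2.1)
  · rw [mem_PZ] at hζ hζ'
    have h : Aq E c q ∩ Aq E c q' =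
        (univ.filter (fun a => q ∈ E a ∧ q' ∈ E a)).biUnion (cp c) := by
      ext x
      simp [Aq, cp]
    rw [Qs_eq, h]
    unfold qf
    rw [sum_biUnion]
    · refine sum_eq_zero (fun a ha => ?_)
      rw [mem_filter] at ha
      have h1 := (hY a).2.2 _ (hζ.2 a ha.2.1) _ (hζ'.2 a ha.2.2)
      rw [Qs_eq] at h1
      unfold qf at h1
      rw [← h1]
      refine sum_congr rfl (fun x hx => ?_)
      have : c x = a := by simpa [cp] using hx
      simp [rs, this]
    · intro a _ b _ hab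
      rw [Function.onFun, Finset.disjoint_left]
      intro x hx hx'
      simp only [cp, mem_filter, mem_univ, true_and] at hx hx'
      exact hab (hx.symm.trans hx')

theorem part3 {E : I → Finset Q} (hE : Fam E) (c : ι → I) (Y Y' : I → Finset (Dc ι))
    (hY : ∀ a, MS (cp c a) (Y a))
    (h : ∀ q, (PZ c Y fun a => q ∈ E a) = PZ c Y' fun a => q ∈ E a) (a : I) : Y a ⊆ Y' a := by
  intro η hη
  obtain ⟨q, hq⟩ := hE.ne a
  choose y hy using fun b => MS_ne (hY b)
  obtain ⟨ζ, hζ, hζ2⟩ := glue c Y (fun a => q ∈ E a) (fun b => (hY b).1)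
    (Function.update y a η) (fun b _ => by
      by_cases hb : b = a
      · subst hb
        simpa using hη
      · simpa [Function.update_of_ne hb] using hy b)
  rw [h q, mem_PZ] at hζ
  have h1 := hζ.2 a hq
  rw [hζ2 a hq, Function.update_self] at h1
  exact h1

end part1

theorem t_FAM : S_FAM := by
  intro hU ι I Q _ _ _ E c hE
  refine ⟨fun Z hZS hZc hZ => ?_, fun Y hY => part2 E c Y hY, fun Y Y' hY hY' h => ?_⟩
  · have hM : ∀ q, MS (Aq E c q) (Z q) := by
      intro q
      refine ⟨hZS q, hZc q, fun ζ hζ ζ' hζ' => ?_⟩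
      have := hZ q q ζ hζ ζ' hζ'
      rwa [inter_self] at this
    exact part1 hU hE hM hZ
  · funext a
    exact Finset.Subset.antisymm (part3 hE c Y Y' hY h a)
      (part3 hE c Y' Y hY' (fun q => (h q).symm) a)

end Pool.Agent.N386.GK
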