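import Pool.Agent.N869.GK.StmX

/-!
# Not all the elements are divisible by two
-/

set_option autoImplicit false

open scoped Classical

namespace Pool.Agent.N386.GK.XDIVB

open WeierstrassCurve Filter Topology
open Pool.Agent.N869.GK.X

open Polynomial in
lemma padic_sq2 {n : ℤ} (hn : n % 8 = 1) : IsSquare (n : ℚ_[2]) := by
  have e1 : ∀ w : ℤ_[2], (aeval w) (X ^ 2 - C (n : ℤ_[2]) : ℤ_[2][X]) = w ^ 2 - n := by
    intro w; simp
  have e2 : ∀ w : ℤ_[2], (aeval w) (derivative (X ^ 2 - C (n : ℤ_[2]) : ℤ_[2][X])) = 2 * w := by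
    intro w; simp; norm_num
  obtain ⟨z, hz, -⟩ := hensels_lemma (p := 2) (R := ℤ_[2]) (F := X ^ 2 - C (n : ℤ_[2]))
    (a := 1) (by
      rw [e1, e2]
      have h4 : ‖(2 : ℤ_[2])‖ = 2⁻¹ := by
        have := PadicInt.norm_p (p := 2)
        exact_mod_cast this
      have h3 : ‖((1 - n : ℤ) : ℤ_[2])‖ ≤ ((2 : ℕ) : ℝ) ^ (-(3 : ℕ) : ℤ) := by
        rw [PadicInt.norm_int_le_pow_iff_dvd]
        push_cast
        omega
      push_cast at h3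
      rw [one_pow, mul_one, h4]
      refine lt_of_le_of_lt h3 ?_
      norm_num)
  rw [e1] at hz
  have h6 := congrArg (fun w : ℤ_[2] => (w : ℚ_[2])) (sub_eq_zero.1 hz)
  push_cast at h6
  exact ⟨z, by rw [← h6]; ring⟩

lemma norm2 : ‖(2 : ℚ_[2])‖ = 1 / 2 := by
  have h := Padic.norm_p (p := 2)
  have h' : ‖(2 : ℚ_[2])‖ = (2 : ℝ)⁻¹ := by exact_mod_cast h
  rw [h']
  norm_num

lemma norm4 : ‖(4 : ℚ_[2])‖ = 1 / 4 := by
  have h : (4 : ℚ_[2]) = 2 * 2 := by norm_num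
  rw [h, norm_mul, norm2]
  norm_num

section

variable (e1 e2 e3 : ℤ)

/-- the points of the curve -/
abbrev Pt : Type := (Wk (e1 : ℚ_[2]) e2 e3).toAffine.Point

variable {e1 e2 e3}

/-- the norm of the first coordinate -/
def Nx (P : Pt e1 e2 e3) (r : ℝ) : Prop :=
  ∃ (x y : ℚ_[2]) (h : (Wk (e1 : ℚ_[2]) e2 e3).toAffine.Nonsingular x y),
    P = Affine.Point.some x y h ∧ ‖x‖ = r

lemma Nx.uniq {P : Pt e1 e2 e3} {r s : ℝ} (h : Nx P r) (h' : Nx P s) : r = s := by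
  obtain ⟨x, y, hx, rfl, rfl⟩ := h
  obtain ⟨x', y', hx', h2, rfl⟩ := h'
  injection h2 with h3 h4
  rw [h3]

lemma big_iff {C : ℝ} {P : Pt e1 e2 e3} : Big C P ↔ ∃ r, C < r ∧ Nx P r := by
  constructor
  · rintro ⟨x, y, h, h1, h2⟩
    exact ⟨‖x‖, h2, x, y, h, h1, rfl⟩
  · rintro ⟨r, hr, x, y, h, h1, rfl⟩
    exact ⟨x, y, h, h1, hr⟩

lemma eqn {x y : ℚ_[2]} (h : (Wk (e1 : ℚ_[2]) e2 e3).toAffine.Nonsingular x y) :
    y ^ 2 = (x - e1) * (x - e2) * (x - e3) := by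
  have h1 := (Affine.equation_iff _ _).1 h.1
  simp only [Wk] at h1
  linear_combination h1

lemma nonsing {x y : ℚ_[2]} (h : y ^ 2 = (x - e1) * (x - e2) * (x - e3)) (hy : y ≠ 0) :
    (Wk (e1 : ℚ_[2]) e2 e3).toAffine.Nonsingular x y := by
  rw [Affine.nonsingular_iff, Affine.equation_iff]
  constructor
  · simp only [Wk]
    linear_combination h
  · right
    simp only [Wk]
    intro h1
    apply hy
    linear_combination h1 / 2

lemma dbl {C : ℝ} (hC : ∀ (x y : ℚ_[2])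
    (h : (Wk (e1 : ℚ_[2]) e2 e3).toAffine.Nonsingular x y), C < ‖x‖ →
    ∃ (x' y' : ℚ_[2]) (h' : (Wk (e1 : ℚ_[2]) e2 e3).toAffine.Nonsingular x' y'),
      Affine.Point.some x y h + Affine.Point.some x y h = Affine.Point.some x' y' h' ∧
      ‖x'‖ * ‖(4 : ℚ_[2])‖ = ‖x‖) {P : Pt e1 e2 e3} {r : ℝ} (hP : Nx P r) (hr : C < r)
    (h0 : 0 < r) (n : ℕ) : Nx ((2 ^ n : ℕ) • P) (4 ^ n * r) := by
  induction n with
  | zero => simpa using hP
  | succ n ih =>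
    obtain ⟨x, y, h, h1, h2⟩ := ih
    have h3 : C < ‖x‖ := by
      rw [h2]
      have h4 : (1 : ℝ) ≤ 4 ^ n := one_le_pow₀ (by norm_num)
      have h5 : r ≤ 4 ^ n * r := by nlinarith
      linarith
    obtain ⟨x', y', h', h4, h5⟩ := hC x y h h3
    refine ⟨x', y', h', ?_, ?_⟩
    · rw [← h4, ← h1, pow_succ, mul_two, add_smul]
    · rw [norm4, h2] at h5
      rw [pow_succ]
      linarith

lemma exists_big (C : ℝ) : ∃ (P : Pt e1 e2 e3) (r : ℝ), Nx P r ∧ C < r := by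
  obtain ⟨k, hk⟩ := pow_unbounded_of_one_lt (max C 16) (by norm_num : (1 : ℝ) < 4)
  have hk1 : C < 4 ^ k := lt_of_le_of_lt (le_max_left _ _) hk
  have hk2 : (16 : ℝ) < 4 ^ k := lt_of_le_of_lt (le_max_right _ _) hk
  have hk3 : 2 ≤ k := by
    by_contra hcon
    have h1 : k ≤ 1 := by omega
    have h2 : (4 : ℝ) ^ k ≤ 4 ^ 1 := pow_le_pow_right₀ (by norm_num) h1
    linarith
  obtain ⟨j, rfl⟩ := Nat.exists_eq_add_of_le hk3
  obtain ⟨n, hn⟩ : ∃ n : ℤ, n = (1 - e1 * 4 ^ (2 + j)) * (1 - e2 * 4 ^ (2 + j)) *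
      (1 - e3 * 4 ^ (2 + j)) := ⟨_, rfl⟩
  have hn8 : n % 8 = 1 := by
    have h1 : ∃ m : ℤ, n = 1 + 8 * m := by
      refine ⟨-2 * 4 ^ j * (e1 + e2 + e3) + 2 * 16 * 4 ^ j * 4 ^ j * (e1 * e2 + e1 * e3 + e2 * e3) -
        2 * 16 * 16 * 4 ^ j * 4 ^ j * 4 ^ j * (e1 * e2 * e3), ?_⟩
      rw [hn, pow_add]
      ring
    obtain ⟨m, hm⟩ := h1
    omega
  obtain ⟨s, hs⟩ := padic_sq2 hn8
  have hn0 : (n : ℚ_[2]) ≠ 0 := by
    have : n ≠ 0 := by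
      intro h0
      rw [h0] at hn8
      norm_num at hn8
    exact_mod_cast this
  have h4 : ((4 : ℚ_[2]) ^ (2 + j)) ≠ 0 := pow_ne_zero _ (by norm_num)
  have h2 : ((2 : ℚ_[2]) ^ (2 + j)) ≠ 0 := pow_ne_zero _ (by norm_num)
  have h24 : ((2 : ℚ_[2]) ^ (2 + j)) ^ 2 = 4 ^ (2 + j) := by
    rw [← pow_mul, mul_comm, pow_mul]
    norm_num
  have hs0 : s ≠ 0 := by
    rintro rfl
    apply hn0
    rw [hs, mul_zero]
  obtain ⟨t, ht⟩ : ∃ t, t = (2 : ℚ_[2]) ^ (2 + j) := ⟨_, rfl⟩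
  rw [← ht] at h2 h24
  have heq : (s / t ^ 3) ^ 2 = ((t ^ 2)⁻¹ - e1) * ((t ^ 2)⁻¹ - e2) * ((t ^ 2)⁻¹ - e3) := by
    have h5 : (n : ℚ_[2]) = (1 - e1 * t ^ 2) * (1 - e2 * t ^ 2) * (1 - e3 * t ^ 2) := by
      rw [hn, h24]
      push_cast
      ring
    rw [div_pow, pow_two s, ← hs, h5]
    field_simp
  refine ⟨Affine.Point.some _ _ (nonsing heq (div_ne_zero hs0 (pow_ne_zero _ h2))),
    ‖((t ^ 2)⁻¹ : ℚ_[2])‖, ⟨_, _, _, rfl, rfl⟩, ?_⟩
  rw [norm_inv, h24, norm_pow, norm4, one_div, inv_pow, inv_inv]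
  exact hk1

lemma norm_sub_le {C : ℝ} (hC : 1 ≤ C) {x : ℚ_[2]} (hx : ‖x‖ ≤ C) (e : ℤ) : ‖x - e‖ ≤ C := by
  have h1 : ‖x + (-(e : ℚ_[2]))‖ ≤ max ‖x‖ ‖-(e : ℚ_[2])‖ := Padic.nonarchimedean _ _
  rw [← sub_eq_add_neg, norm_neg] at h1
  have h2 : ‖(e : ℚ_[2])‖ ≤ 1 := Padic.norm_int_le_one e
  exact h1.trans (max_le hx (h2.trans hC))

lemma y_bound {C : ℝ} (hC : 1 ≤ C) {x y : ℚ_[2]}
    (h : (Wk (e1 : ℚ_[2]) e2 e3).toAffine.Nonsingular x y) (hx : ‖x‖ ≤ C) : ‖y‖ ≤ C ^ 3 := by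
  have h1 := congrArg norm (eqn h)
  rw [norm_pow, norm_mul, norm_mul] at h1
  have h2 : ‖y‖ ^ 2 ≤ C ^ 3 := by
    rw [h1]
    have a1 := norm_sub_le hC hx e1
    have a2 := norm_sub_le hC hx e2
    have a3 := norm_sub_le hC hx e3
    calc ‖x - e1‖ * ‖x - e2‖ * ‖x - e3‖ ≤ C * C * C := by gcongr
      _ = C ^ 3 := by ring
  have h3 : (1 : ℝ) ≤ C ^ 3 := one_le_pow₀ hC
  have h4 : ‖y‖ ^ 2 ≤ (C ^ 3) ^ 2 := by nlinarith
  exact (sq_le_sq₀ (norm_nonneg _) (by positivity)).1 h4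

end

theorem t_DIVB : S_DIVB := by
  intro hDBL hDTW hDIF hTRL e1 e2 e3 h12 h13 h23 N _
  by_contra hcon
  push Not at hcon
  choose f hf using hcon
  obtain ⟨C, hC1, hC⟩ := hDBL 2 e1 e2 e3 h12 h13 h23
  obtain ⟨P0, r1, hP0, hr1⟩ := exists_big (e1 := e1) (e2 := e2) (e3 := e3) C
  -- the sequence
  obtain ⟨R, hR0, hR⟩ : ∃ R : ℕ → Pt e1 e2 e3, R 0 = P0 ∧ ∀ j, R (j + 1) = f (R j) :=
    ⟨fun j => f^[j] P0, rfl, fun j => Function.iterate_succ_apply' f j P0⟩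
  obtain ⟨Q, hQ⟩ : ∃ Q : ℕ → Pt e1 e2 e3, ∀ j, Q j = (2 ^ N : ℕ) • R j := ⟨_, fun _ => rfl⟩
  have hstep : ∀ j, Q (j + 1) + Q (j + 1) = Q j := by
    intro j
    rw [hQ, hQ, hf (R j), ← hR, ← add_smul, ← mul_two, ← pow_succ]
  have hmul : ∀ l j, (2 ^ l : ℕ) • Q (j + l) = Q j := by
    intro l
    induction l with
    | zero => intro j; simp
    | succ l ih =>
      intro j
      have e : (2 ^ (l + 1) : ℕ) • Q (j + (l + 1)) =
          (2 ^ l : ℕ) • (Q (j + l + 1) + Q (j + l + 1)) := by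
        rw [pow_succ, mul_two, add_smul, nsmul_add]
        rfl
      rw [e, hstep, ih]
  have hr1p : 0 < r1 := by linarith
  obtain ⟨r0, hr0⟩ : ∃ r0, r0 = 4 ^ N * r1 := ⟨_, rfl⟩
  have hN0 : Nx (Q 0) r0 := by
    rw [hQ, hR0, hr0]
    exact dbl hC hP0 hr1 hr1p N
  have hr0C : C < r0 := by
    rw [hr0]
    have h4 : (1 : ℝ) ≤ 4 ^ N := one_le_pow₀ (by norm_num)
    nlinarith
  have hr0p : 0 < r0 := by linarith
  have hscale : ∀ j r, Nx (Q j) r → C < r → 4 ^ j * r = r0 := by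
    intro j r h1 h2
    have h3 := dbl hC h1 h2 (by linarith) j
    have h4 := hmul j 0
    rw [zero_add] at h4
    rw [h4] at h3
    exact h3.uniq hN0
  have hA : ∀ l, 1 ≤ l → ¬ Nx (Q l) r0 := by
    intro l hl h1
    have h2 := hscale l r0 h1 hr0C
    have h3 : (1 : ℝ) < 4 ^ l := one_lt_pow₀ (by norm_num) (by omega)
    nlinarith
  obtain ⟨n, hn⟩ := pow_unbounded_of_one_lt r0 (by norm_num : (1 : ℝ) < 4)
  have hnb : ∀ j, n ≤ j → ¬ Big C (Q j) := by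
    intro j hj hb
    obtain ⟨r, h1, h2⟩ := big_iff.1 hb
    have h3 := hscale j r h2 h1
    have h4 : (4 : ℝ) ^ n ≤ 4 ^ j := pow_le_pow_right₀ (by norm_num) hj
    have h5 : (0 : ℝ) < 4 ^ j := by positivity
    nlinarith
  have hne : ∀ j, Q j ≠ 0 := by
    intro j hj
    have h4 := hmul j 0
    rw [zero_add, hj, nsmul_zero] at h4
    obtain ⟨x, y, h, h1, -⟩ := hN0
    rw [← h4] at h1
    exact absurd h1.symm (Affine.Point.some_ne_zero h)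
  obtain ⟨ε, hε, hDT⟩ := hDTW 2 e1 e2 e3 h12 h13 h23 C
  have hco : ∀ j, ∃ (x y : ℚ_[2]) (h : (Wk (e1 : ℚ_[2]) e2 e3).toAffine.Nonsingular x y),
      Q (n + 1 + j) = Affine.Point.some x y h ∧ ‖x‖ ≤ C ∧ ε ≤ ‖y‖ := by
    intro j
    have h1 := hnb (n + 1 + j) (by omega)
    have h2 := hne (n + 1 + j)
    have h3 := hstep (n + j)
    have e : n + j + 1 = n + 1 + j := by omega
    rw [e] at h3
    have h4 := hnb (n + j) (by omega)
    have h5 := hne (n + j)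
    rw [← h3] at h4 h5
    rcases hq : Q (n + 1 + j) with _ | ⟨x, y, h⟩
    · exact absurd hq h2
    · rw [hq] at h1 h4 h5
      refine ⟨x, y, h, rfl, ?_, ?_⟩
      · by_contra hx
        exact h1 ⟨x, y, h, rfl, not_le.1 hx⟩
      · by_contra hy
        refine h4 (hDT x y h ?_ (not_le.1 hy))
        rintro rfl
        refine h5 (Affine.Point.add_self_of_Y_eq ?_)
        simp only [Affine.negY, Wk]
        ring
  choose X Y H hX hXC hYε using hco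
  -- the constants
  obtain ⟨x0, y0, h0, hQ0, hx0⟩ := hN0
  obtain ⟨C1, hC1'⟩ := hTRL 2 e1 e2 e3 h12 h13 h23 x0 y0 h0 1 one_pos
  obtain ⟨M, hM⟩ : ∃ M, M = max C C1 := ⟨_, rfl⟩
  have hMC : C ≤ M := by rw [hM]; exact le_max_left _ _
  have hMC1 : C1 ≤ M := by rw [hM]; exact le_max_right _ _
  obtain ⟨η, hη, hDF⟩ := hDIF 2 e1 e2 e3 h12 h13 h23 M ε hε
  -- two close points
  obtain ⟨i, j, hij, hxd, hyd⟩ : ∃ i j : ℕ, i < j ∧ ‖X i - X j‖ < η ∧ ‖Y i - Y j‖ < η := by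
    have hmem : ∀ j, (X j, Y j) ∈ Metric.closedBall (0 : ℚ_[2] × ℚ_[2]) (C ^ 3) := by
      intro j
      rw [mem_closedBall_zero_iff, Prod.norm_def]
      refine max_le ((hXC j).trans ?_) (y_bound hC1 (H j) (hXC j))
      exact le_self_pow₀ hC1 (by norm_num)
    obtain ⟨a, -, φ, hφ, hlim⟩ := (isCompact_closedBall (0 : ℚ_[2] × ℚ_[2]) (C ^ 3)).tendsto_subseq
      hmem
    have hcau := hlim.cauchySeq
    rw [Metric.cauchySeq_iff'] at hcau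
    obtain ⟨K, hK⟩ := hcau η hη
    have h1 := hK (K + 1) (by omega)
    rw [dist_comm, Function.comp_apply, Function.comp_apply, dist_eq_norm, Prod.norm_def] at h1
    exact ⟨φ K, φ (K + 1), hφ (by omega), (le_max_left _ _).trans_lt h1,
      (le_max_right _ _).trans_lt h1⟩
  obtain ⟨l, rfl⟩ : ∃ l, j = i + l := ⟨j - i, by omega⟩
  have hl : 1 ≤ l := by omega
  -- the difference
  have hQ1 : (2 ^ (n + 1 + i) : ℕ) • Q (n + 1 + i) = Q 0 := by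
    have := hmul (n + 1 + i) 0
    rwa [zero_add] at this
  have hQ2 : (2 ^ (n + 1 + i) : ℕ) • Q (n + 1 + (i + l)) = Q l := by
    have := hmul (n + 1 + i) l
    rwa [show l + (n + 1 + i) = n + 1 + (i + l) by omega] at this
  have hdiff : (X i, Y i) ≠ (X (i + l), Y (i + l)) := by
    intro heq
    have h1 : Q (n + 1 + i) = Q (n + 1 + (i + l)) := by
      rw [hX, hX]
      have h2 := (Prod.mk.inj heq).1
      have h3 := (Prod.mk.inj heq).2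
      congr 1
    rw [h1, hQ2] at hQ1
    refine hA l hl ?_
    rw [hQ1, hQ0]
    exact ⟨x0, y0, h0, rfl, hx0⟩
  have hbig := hDF (X i) (Y i) (X (i + l)) (Y (i + l)) (H i) (H (i + l))
    ((hXC _).trans hMC) ((hXC _).trans hMC) (hYε _) hxd hyd hdiff
  rw [← hX, ← hX] at hbig
  obtain ⟨r, hr, hNr⟩ := big_iff.1 hbig
  have hrp : 0 < r := by linarith
  have hbig2 := dbl hC hNr (by linarith) hrp (n + 1 + i)
  rw [nsmul_sub, hQ1, hQ2] at hbig2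
  have hb : Big C1 (Q 0 - Q l) := by
    refine big_iff.2 ⟨_, ?_, hbig2⟩
    have h4 : (1 : ℝ) ≤ 4 ^ (n + 1 + i) := one_le_pow₀ (by norm_num)
    nlinarith
  obtain ⟨x', y', h', hx', hxx⟩ := hC1' _ hb
  rw [← hQ0, sub_sub_cancel] at hx'
  refine hA l hl ⟨x', y', h', hx', ?_⟩
  have h1 : ‖x' - x0‖ ≠ ‖x0‖ := by
    rw [hx0]
    intro h2
    linarith
  have h2 := Padic.add_eq_max_of_ne h1
  rw [sub_add_cancel, hx0, max_eq_right (by linarith)] at h2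
  exact h2

end Pool.Agent.N386.GK.XDIVB
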